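import Pool.Agent.Y161.FSP.Part2
import Pool.Agent.H891FSS.FU_SGE

/-!
# Simultaneous geometric embedding without mapping: distance criteria

Let `G` and `H` be planar graphs with the same number of vertices. If `G` has maximum degree at most
three and has a set `S` of vertices at pairwise distance at least four, or if `G` is bipartite (no
bound on the degrees) and has a set `S` of vertices at pairwise distance at least three, and if `H`
has at most `|S|` non-isolated vertices, then `G` and `H` have a simultaneous geometric embedding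
without mapping.
-/

set_option autoImplicit false

namespace Pool.Agent.Results.MP_41797f_co.DistanceCriteria

open Pool.Agent.H891WLC

/-- `p` is a crossing-free straight-line drawing of `G`: distinct vertices are distinct points, every
edge is the open segment between its ends, no edge contains (the image of) a vertex, and distinct
edges are disjoint. -/
def Drawing {V : Type} (G : SimpleGraph V) (p : V → ℝ × ℝ) : Prop :=
  Function.Injective p ∧
    (∀ u v w : V, G.Adj u v → p w ∉ openSegment ℝ (p u) (p v)) ∧
    (∀ u v x y : V, G.Adj u v → G.Adj x y → s(u, v) ≠ s(x, y) →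
      Disjoint (openSegment ℝ (p u) (p v)) (openSegment ℝ (p x) (p y)))

/-- `G` is planar (it has a straight-line crossing-free drawing) -/
def Planar {V : Type} (G : SimpleGraph V) : Prop := ∃ p : V → ℝ × ℝ, Drawing G p

/-- maximum degree at most `D` -/
def MaxDegree {V : Type} (G : SimpleGraph V) (D : ℕ) : Prop := ∀ v, Set.ncard {x | G.Adj v x} ≤ D

theorem drawing_of_plane {V : Type} {G : SimpleGraph V} {p : V → ℝ × ℝ} (h : Plane G p) :
    Drawing G p := by
  obtain ⟨hinj, hv, he⟩ := h
  have hend : ∀ u v : V, u ≠ v → p u ∉ openSegment ℝ (p u) (p v) := by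
    intro u v huv hmem
    exact huv (hinj (left_mem_openSegment_iff.mp hmem))
  have hend' : ∀ u v : V, u ≠ v → p v ∉ openSegment ℝ (p u) (p v) := by
    intro u v huv hmem
    rw [openSegment_symm] at hmem
    exact hend v u huv.symm hmem
  refine ⟨hinj, ?_, ?_⟩
  · intro u v w huv hmem
    by_cases h1 : w = u
    · subst h1; exact hend _ _ huv.ne hmem
    · by_cases h2 : w = v
      · subst h2; exact hend' _ _ huv.ne hmem
      · exact hv u v w huv h1 h2 (openSegment_subset_segment ℝ _ _ hmem)
  · intro u v x y huv hxy hne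
    rw [Set.disjoint_left]
    intro z hz1 hz2
    obtain ⟨w, hw1, hw2, hzw⟩ := he u v x y huv hxy hne z
      (openSegment_subset_segment ℝ _ _ hz1) (openSegment_subset_segment ℝ _ _ hz2)
    rcases hw1 with rfl | rfl
    · rw [hzw] at hz1; exact hend _ _ huv.ne hz1
    · rw [hzw] at hz1; exact hend' _ _ huv.ne hz1

theorem plane_of_drawing {V : Type} {G : SimpleGraph V} {p : V → ℝ × ℝ} (h : Drawing G p) :
    Plane G p := by
  obtain ⟨hinj, hv, he⟩ := h
  have hcase : ∀ u v : V, ∀ z ∈ segment ℝ (p u) (p v),
      z = p u ∨ z = p v ∨ z ∈ openSegment ℝ (p u) (p v) := by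
    intro u v z hz
    rw [← insert_endpoints_openSegment] at hz
    simpa using hz
  refine ⟨hinj, ?_, ?_⟩
  · intro u v w huv h1 h2 hmem
    rcases hcase u v _ hmem with h | h | h
    · exact h1 (hinj h)
    · exact h2 (hinj h)
    · exact hv u v w huv h
  · intro u v x y huv hxy hne z hz1 hz2
    rcases hcase u v z hz1 with h1 | h1 | h1
    · rcases hcase x y z hz2 with h2 | h2 | h2
      · exact ⟨u, Or.inl rfl, Or.inl (hinj (h1.symm.trans h2)), h1⟩
      · exact ⟨u, Or.inl rfl, Or.inr (hinj (h1.symm.trans h2)), h1⟩
      · exact absurd (h1 ▸ h2) (hv x y u hxy)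
    · rcases hcase x y z hz2 with h2 | h2 | h2
      · exact ⟨v, Or.inr rfl, Or.inl (hinj (h1.symm.trans h2)), h1⟩
      · exact ⟨v, Or.inr rfl, Or.inr (hinj (h1.symm.trans h2)), h1⟩
      · exact absurd (h1 ▸ h2) (hv x y v hxy)
    · rcases hcase x y z hz2 with h2 | h2 | h2
      · exact absurd (h2 ▸ h1) (hv u v x huv)
      · exact absurd (h2 ▸ h1) (hv u v y huv)
      · exact absurd h2 (Set.disjoint_left.mp (he u v x y huv hxy hne) h1)

/-- `G` and `H` have a simultaneous geometric embedding without mapping: some point set `P` supports a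
crossing-free straight-line drawing of each of them that uses exactly the points of `P`. -/
def SGENoMap {V W : Type} (G : SimpleGraph V) (H : SimpleGraph W) : Prop :=
  ∃ (P : Set (ℝ × ℝ)) (p : V → ℝ × ℝ) (r : W → ℝ × ℝ),
    Drawing G p ∧ Drawing H r ∧ Set.range p = P ∧ Set.range r = P

/-- at most `t` vertices of `H` are not isolated -/
def FewNonIsolated {W : Type} (H : SimpleGraph W) (t : ℕ) : Prop :=
  ∃ N : Finset W, (∀ x y, H.Adj x y → x ∈ N) ∧ N.card ≤ t

/-- `d` is smaller than the distance in `G` of any two different elements of `S` -/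
def FartherThan {V : Type} (G : SimpleGraph V) (S : Finset V) (d : ℕ) : Prop :=
  ∀ v ∈ S, ∀ w ∈ S, v ≠ w → ∀ q : G.Walk v w, d < q.length

theorem sge_of {V W : Type} [Fintype V] [Fintype W] (G : SimpleGraph V) (H : SimpleGraph W)
    (hVW : Fintype.card V = Fintype.card W) (S : Finset V)
    (hS : Pool.Agent.Y161.FSP2.FrP G S) (hH : Planar H) (hN : FewNonIsolated H S.card) :
    SGENoMap G H := by
  classical
  obtain ⟨N, hN1, hN2⟩ := hN
  obtain ⟨r0, hr0⟩ := hH
  obtain ⟨q, r, hq, hr, hqr⟩ := FU_SGE G H hVW S hS ⟨r0, plane_of_drawing hr0⟩ N hN1 hN2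
  exact ⟨Set.range r, q, r, drawing_of_plane hq, drawing_of_plane hr, hqr, rfl⟩

theorem few_mono {W : Type} (H : SimpleGraph W) (s t : ℕ) (hst : s ≤ t)
    (h : FewNonIsolated H s) : FewNonIsolated H t := by
  obtain ⟨N, h1, h2⟩ := h
  exact ⟨N, h1, h2.trans hst⟩

/-- **Distance criteria for pairs of planar graphs on the same number of vertices.** (a) Let `G` be
planar of maximum degree at most three and `H` planar with the same number `n` of vertices. If `G`
has a set `S` of vertices at pairwise distance at least four and `H` has at most `|S|` non-isolated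
vertices, then `G` and `H` have a simultaneous geometric embedding without mapping; in particular
this holds if `H` has at most `k` non-isolated vertices and `22 k ≤ n + 21`. (b) The same for `G`
bipartite planar, without any bound on the degrees, with distance at least three; in particular it
holds if the maximum degree of `G` is at most `D`, `H` has at most `k` non-isolated vertices and
`(D ^ 2 + 1) k ≤ n + D ^ 2`. -/
theorem result :
    (∀ (V W : Type) [Fintype V] [Fintype W] (G : SimpleGraph V) (H : SimpleGraph W),
      Fintype.card V = Fintype.card W → Planar G → MaxDegree G 3 → Planar H →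
        (∀ S : Finset V, FartherThan G S 3 → FewNonIsolated H S.card → SGENoMap G H) ∧
        (∀ k : ℕ, FewNonIsolated H k → 22 * k ≤ Fintype.card V + 21 → SGENoMap G H)) ∧
    (∀ (V W : Type) [Fintype V] [Fintype W] (G : SimpleGraph V) (H : SimpleGraph W),
      Fintype.card V = Fintype.card W → Planar G → G.Colorable 2 → Planar H →
        (∀ S : Finset V, FartherThan G S 2 → FewNonIsolated H S.card → SGENoMap G H) ∧
        (∀ D k : ℕ, MaxDegree G D → FewNonIsolated H k →
          (D ^ 2 + 1) * k ≤ Fintype.card V + D ^ 2 → SGENoMap G H)) := by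
  classical
  have few : ∀ m k n s : ℕ, n ≤ (m + 1) * s → (m + 1) * k ≤ n + m → k ≤ s := by
    intro m k n s h1 h2
    by_contra h
    push Not at h
    have h3 : (m + 1) * (s + 1) ≤ (m + 1) * k := Nat.mul_le_mul_left _ h
    have h4 : (m + 1) * (s + 1) = (m + 1) * s + (m + 1) := by ring
    omega
  constructor
  · intro V W _ _ G H hVW hG hD hH
    obtain ⟨p, hp⟩ := hG
    have hP' : ∃ p : V → ℝ × ℝ, Plane G p := ⟨p, plane_of_drawing hp⟩
    constructor
    · intro S hS hN
      refine sge_of G H hVW S (Pool.Agent.Y161.FSP2.cubicFree G hP' hD S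
        fun v hv w hw hvw => ⟨?_, ?_, ?_⟩).2 hH hN
      · intro h
        have := hS v hv w hw hvw h.toWalk
        simp at this
      · rintro x ⟨h1, h2⟩
        have := hS v hv w hw hvw (SimpleGraph.Walk.cons h1 h2.symm.toWalk)
        simp at this
      · intro x y h1 h2 h3
        have := hS v hv w hw hvw
          (SimpleGraph.Walk.cons h1 (SimpleGraph.Walk.cons h3 h2.symm.toWalk))
        simp at this
    · intro k hN hk
      obtain ⟨f, hf⟩ := Pool.Agent.Y161.FSP2.cubicPart G hP' hD
      obtain ⟨S, -, h2, h3⟩ := Pool.Agent.Y161.FSP2.pick 21 f Finset.univ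
      rw [Finset.card_univ] at h3
      exact sge_of G H hVW S (hf S h2).2 hH (few_mono H k S.card (few 21 k _ _ h3 hk) hN)
  · intro V W _ _ G H hVW hG hc hH
    obtain ⟨p, hp⟩ := hG
    have hP' : ∃ p : V → ℝ × ℝ, Plane G p := ⟨p, plane_of_drawing hp⟩
    constructor
    · intro S hS hN
      refine sge_of G H hVW S (Pool.Agent.Y161.FSP2.bipFree G hP' hc S
        fun v hv w hw hvw => ⟨?_, ?_⟩).2 hH hN
      · intro h
        have := hS v hv w hw hvw h.toWalk
        simp at this
      · rintro x ⟨h1, h2⟩
        have := hS v hv w hw hvw (SimpleGraph.Walk.cons h1 h2.symm.toWalk)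
        simp at this
    · intro D k hD hN hk
      obtain ⟨f, hf⟩ := Pool.Agent.Y161.FSP2.bipPart G hP' hc D hD
      obtain ⟨S, -, h2, h3⟩ := Pool.Agent.Y161.FSP2.pick (D * D) f Finset.univ
      rw [Finset.card_univ] at h3
      rw [sq] at hk
      exact sge_of G H hVW S (hf S h2).2 hH (few_mono H k S.card (few (D * D) k _ _ h3 hk) hN)

end Pool.Agent.Results.MP_41797f_co.DistanceCriteria
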